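import Pool.Agent.TH6.FB.Cx

set_option autoImplicit false

/-! Torsion of contractible complexes over a group ring `RE`, which are controlled over a quotient
`G` of `E` by a matrix of `ℓ²`-operator norm less than `3 / √2`. -/

namespace Pool.Agent.Results.MP_5d3e93_al.ControlledComplexes

open TH57.Thr TH6.LF TH6.PF TH6.CX TH6.FB

/-- the support of the matrix `A` over `ℤG` is symmetric, or `A * A = 0` and no two opposite
entries of `A` are both nonzero (as for the boundary operator of a complex) -/
def SymOrBoundary {G ι : Type} [Group G] [Fintype ι] [DecidableEq ι]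
    (A : Matrix ι ι (MonoidAlgebra ℤ G)) : Prop :=
  (∀ i j g, (A i j).coeff g ≠ 0 → (A j i).coeff g⁻¹ ≠ 0) ∨
    (A * A = 0 ∧ ∀ i j, A i j ≠ 0 → A j i = 0)

/-- Let `φ : E → G` be a surjective homomorphism of groups, `R` a ring and `d` the boundary operator
of a based complex over `RE` with contraction `s`. Suppose that `d`, or some contraction `t` with
`t * t = 0`, is controlled over `G` by a matrix `A` over `ℤG` of operator norm at most `c < 3 / √2`
whose support is symmetric or which is itself a boundary operator. Then for every bijection `e` from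
the basis elements of odd degree to those of even degree the matrix of `d + s` from the odd to the
even part (the torsion of the complex) is a product of invertible matrices over group rings `RH` of
subgroups `H` of `E` with virtually cyclic image in `G`. -/
theorem result (R : Type) [Ring R]
    (E G : Type) [Group E] [Group G] (φ : E →* G)
    (hφ : Function.Surjective φ) (ι : Type) [Fintype ι] [DecidableEq ι] (deg : ι → ℤ)
    (d s : Matrix ι ι (MonoidAlgebra R E)) (hd : IsBd deg d) (hs : IsCt deg d s)
    (A : Matrix ι ι (MonoidAlgebra ℤ G)) (hAs : SymOrBoundary A)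
    (c : ℝ) (hc0 : 0 < c) (hc : c ^ 2 < 9 / 2) (hA : NormLE A c)
    (hthin : Controlled φ A d ∨ ∃ t, IsCt deg d t ∧ t * t = 0 ∧ Controlled φ A t)
    (e : {i // Odd (deg i)} ≃ {i // Even (deg i)}) :
    ∃ T : (Matrix {i // Odd (deg i)} {i // Odd (deg i)} (MonoidAlgebra R E))ˣ,
      T.val = torMatrix deg d s e ∧ T ∈ FGen R E {i // Odd (deg i)} (VCImage φ) := by
  rcases hAs with hsym | ⟨hAA, hopp⟩
  · exact F_main φ hφ deg d hd A hsym c hc0 hc hA hthin s hs e
  · have hA' : NormLE (A + adj A) c := norm_sym A hAA c hc0 hA
    have hco : ∀ i j g, (A i j).coeff g ≠ 0 → ((A + adj A) i j).coeff g ≠ 0 := by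
      intro i j g h
      rw [coeff_add_adj, hopp i j (fun h0 => h (by rw [h0]; rfl))]
      simpa using h
    have hthin' : Controlled φ (A + adj A) d ∨
        ∃ t, IsCt deg d t ∧ t * t = 0 ∧ Controlled φ (A + adj A) t := by
      rcases hthin with h | ⟨t, h1, h2, h3⟩
      · exact Or.inl fun i j e he => hco _ _ _ (h i j e he)
      · exact Or.inr ⟨t, h1, h2, fun i j e he => hco _ _ _ (h3 i j e he)⟩
    exact F_main φ hφ deg d hd (A + adj A) (sym_add_adj A) c hc0 hc hA' hthin' s hs e

end Pool.Agent.Results.MP_5d3e93_al.ControlledComplexes
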