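import Mathlib
import Pool.Agent.W647.HX2

/-!
# Higher even Chern characters of `K₀` of rings graded by a group

Let `G` be a group, possibly with torsion, and `S` a ring graded by `G`, for example a crossed
product `R * G`, as the endomorphism rings of the objects of `𝒜[G]` for an additive `G`-category
`𝒜` are. The Farrell-Jones conjecture with coefficients says that `K₀(𝒜[G])` is assembled from the
`K₀(𝒜[V])`, `V` virtually cyclic, and lower `K`-groups; the components of degree `2 k ≥ 2` of the
Chern character at the conjugacy classes of elements of finite order are zero there. We prove for all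
`G` and `S` that their values on idempotent matrices, times `(2 k)! / k!`, are divisible by all
positive integers.
-/

set_option autoImplicit false

namespace Pool.Agent.Results.MP_5d3e93_al.EvenChernGradedRings

universe u1 u2 u3 u4 u5

/-- An alternating homogeneous cocycle `c` of degree `n` on `G` with values in `A` which is invariant
under left multiplication of all variables by elements of the centralizer of `g`, and under left
multiplication of a single variable by `g`. -/
structure IsClassCocycle {G : Type u1} [Group G] {A : Type u3} [AddCommGroup A] (g : G) {n : ℕ}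
    (c : (Fin (n + 1) → G) → A) : Prop where
  perm : ∀ (v : Fin (n + 1) → G) (σ : Equiv.Perm (Fin (n + 1))),
    c (v ∘ σ) = ((Equiv.Perm.sign σ : ℤˣ) : ℤ) • c v
  rep : ∀ (v : Fin (n + 1) → G) (i j : Fin (n + 1)), i ≠ j → v i = v j → c v = 0
  left : ∀ z : G, z * g = g * z → ∀ v : Fin (n + 1) → G, c (fun i => z * v i) = c v
  single : ∀ (v : Fin (n + 1) → G) (i : Fin (n + 1)), c (Function.update v i (g * v i)) = c v
  closed : ∀ v : Fin (n + 2) → G, ∑ i : Fin (n + 2), (-1 : ℤ) ^ (i : ℕ) • c (v ∘ i.succAbove) = 0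

open Classical in
/-- The pairing of the component at the class of `g` of the Chern character of the matrix `e` over the
graded ring `S` with the trace `T` and the cochain `c`: the sum over all `w = (w₀, …, w_n)` whose
product `y` is conjugate to `g`, `g = t y t⁻¹`, of
`T (tr (e_{w₀} e_{w₁} ⋯ e_{w_n}), c (t, t w₀, t w₀ w₁, …, t w₀ ⋯ w_{n-1}))`, where `e_s` is the matrix of
the homogeneous components of degree `s` of the entries of `e`. -/
noncomputable def chernNumber {G : Type u1} [Group G] [DecidableEq G] {S : Type u2} [Ring S]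
    (𝒮 : G → AddSubgroup S) [DirectSum.Decomposition 𝒮] {A : Type u3} [AddCommGroup A]
    {M : Type u4} [AddCommGroup M] (T : S →+ A →+ M) {d : Type u5} [Fintype d] [DecidableEq d]
    (g : G) (t : G → G) {n : ℕ} (c : (Fin (n + 1) → G) → A) (e : Matrix d d S) : M :=
  ∑ᶠ w : Fin (n + 1) → G, if IsConj (List.ofFn w).prod g then
    T (List.ofFn fun i => e.map fun x => (DirectSum.decompose 𝒮 x (w i) : S)).prod.trace
      (c fun i => t (List.ofFn w).prod * ((List.ofFn w).take i).prod) else 0

/-- `S` is a ring graded by the group `G`, `T : S × A → M` is biadditive with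
`T (x y, a) = T (y x, a)`, `e` is an idempotent matrix over `S`, `g` an element of finite order of
`G`, `t y * y * (t y)⁻¹ = g` for all `y` conjugate to `g`, `c` an `A`-valued cocycle for `g` of degree
`2 k ≥ 2`, `τ` the number of `e` and `c`. (1) `(2 k)! / k! τ` is divisible by all `N ≥ 1` in `M`.
(2) `τ = 0` if `N M = 0` for some `N ≥ 1` prime to `(2 k)! / k!`. (3) `τ = 0` if `M` is torsion-free
and `0` is its only element which is divisible by all `N ≥ 1`. -/
theorem result (G : Type u1) [Group G] [DecidableEq G] (S : Type u2) [Ring S]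
    (𝒮 : G → AddSubgroup S) [DirectSum.Decomposition 𝒮] (h1 : (1 : S) ∈ 𝒮 1)
    (hmul : ∀ g h : G, ∀ x ∈ 𝒮 g, ∀ y ∈ 𝒮 h, x * y ∈ 𝒮 (g * h))
    (A : Type u3) [AddCommGroup A] (M : Type u4) [AddCommGroup M] (T : S →+ A →+ M)
    (hT : ∀ x y, T (x * y) = T (y * x)) (d : Type u5) [Fintype d] [DecidableEq d]
    (e : Matrix d d S) (he : e * e = e) (g : G) (hg : IsOfFinOrder g) (t : G → G)
    (ht : ∀ y, IsConj y g → t y * y * (t y)⁻¹ = g) (k : ℕ) (hk : 1 ≤ k)
    (c : (Fin (2 * k + 1) → G) → A) (hc : IsClassCocycle g c) :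
    (∀ N : ℕ, N ≠ 0 →
      ∃ y : M, (2 * k).descFactorial k • chernNumber 𝒮 T g t c e = N • y) ∧
    (∀ N : ℕ, N ≠ 0 → (∀ y : M, N • y = 0) → N.Coprime ((2 * k).descFactorial k) →
      chernNumber 𝒮 T g t c e = 0) ∧
    ((∀ (N : ℕ) (y : M), N ≠ 0 → N • y = 0 → y = 0) →
      (∀ x : M, (∀ N : ℕ, N ≠ 0 → ∃ y, x = N • y) → x = 0) → chernNumber 𝒮 T g t c e = 0) := by
  have key : ∀ N : ℕ, N ≠ 0 →
      ∃ y : M, (2 * k).descFactorial k • chernNumber 𝒮 T g t c e = N • y := fun N hN =>
    Pool.Agent.W647.HX1.graded_even 𝒮 h1 hmul T hT hg ht (by omega)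
      ⟨hc.perm, hc.rep, hc.left, hc.single, hc.closed⟩ e he N hN
  refine ⟨key, fun N hN hM hcop => ?_, fun h2 h3 => ?_⟩
  · obtain ⟨y, hy⟩ := key N hN
    rw [hM] at hy
    have h4 := Nat.gcd_eq_gcd_ab N ((2 * k).descFactorial k)
    rw [hcop] at h4
    have h5 : ((N : ℤ) * (Nat.gcdA N ((2 * k).descFactorial k)) +
        (((2 * k).descFactorial k : ℕ) : ℤ) * (Nat.gcdB N ((2 * k).descFactorial k))) •
          chernNumber 𝒮 T g t c e = chernNumber 𝒮 T g t c e := by
      rw [← h4, Nat.cast_one, one_smul]
    rw [add_smul, mul_smul, natCast_zsmul, hM, zero_add, mul_smul, natCast_zsmul, smul_comm, hy,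
      smul_zero] at h5
    exact h5.symm
  · exact h2 ((2 * k).descFactorial k) _
      (Nat.descFactorial_eq_zero_iff_lt.not.2 (by omega)) (h3 _ key)

end Pool.Agent.Results.MP_5d3e93_al.EvenChernGradedRings
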