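import Mathlib
import Pool.Agent.W647.HY4
import Pool.Agent.Y35.KC.Od

/-!
# Higher odd Chern characters of `K₁` of rings graded by a group

Let `G` be a group and `S` a ring graded by `G`, for example a crossed product `R * G`, as the
endomorphism rings of the objects of `𝒜[G]` for an additive `G`-category `𝒜` are. The Farrell-Jones
conjecture with coefficients says that `K₁(𝒜[G])` is assembled from the virtually cyclic subgroups;
the components of degree `2 k + 1 ≥ 3` of the odd Chern character at the conjugacy classes of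
elements of finite order are zero there. We prove that their values on invertible matrices, times
`k!`, are divisible by all `N` such that `G` has no element of order `p` for the primes `p ∣ N`, and
a similar statement at the conjugacy classes of the elements of bounded `p`-height.
-/

set_option autoImplicit false

namespace Pool.Agent.Results.MP_5d3e93_al.OddChernGradedRings

universe u1 u2 u3 u4 u5

/-- An alternating homogeneous cocycle `c` of degree `n` on `G` with values in `A` which is invariant
under left multiplication of all variables by elements of the centralizer of `g`, and under left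
multiplication of a single variable by `g`. -/
structure IsClassCocycle {G : Type u1} [Group G] {A : Type u3} [AddCommGroup A] (g : G) {n : ℕ}
    (c : (Fin (n + 1) → G) → A) : Prop where
  perm : ∀ (v : Fin (n + 1) → G) (σ : Equiv.Perm (Fin (n + 1))),
    c (v ∘ σ) = ((Equiv.Perm.sign σ : ℤˣ) : ℤ) • c v
  rep : ∀ (v : Fin (n + 1) → G) (i j : Fin (n + 1)), i ≠ j → v i = v j → c v = 0
  left : ∀ z : G, z * g = g * z → ∀ v : Fin (n + 1) → G, c (fun i => z * v i) = c v
  single : ∀ (v : Fin (n + 1) → G) (i : Fin (n + 1)), c (Function.update v i (g * v i)) = c v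
  closed : ∀ v : Fin (n + 2) → G, ∑ i : Fin (n + 2), (-1 : ℤ) ^ (i : ℕ) • c (v ∘ i.succAbove) = 0

/-- The matrix of the homogeneous components of degree `s`. -/
def comp {G : Type u1} [Group G] [DecidableEq G] {S : Type u2} [Ring S] (𝒮 : G → AddSubgroup S)
    [DirectSum.Decomposition 𝒮] {d : Type u5} (e : Matrix d d S) (s : G) : Matrix d d S :=
  e.map fun x => (DirectSum.decompose 𝒮 x s : S)

open Classical in
/-- The pairing of the component at the class of `g` of the odd Chern character of the matrix `u` over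
the graded ring `S`, with inverse `v`, with the trace `T` and the cochain `c`: the sum over all
`w = (w₀, …, w_n)` whose product `y` is conjugate to `g`, `g = t y t⁻¹`, of
`T (tr (v_{w₀} u_{w₁} v_{w₂} ⋯), c (t, t w₀, t w₀ w₁, …, t w₀ ⋯ w_{n-1}))`. -/
noncomputable def oddNumber {G : Type u1} [Group G] [DecidableEq G] {S : Type u2} [Ring S]
    (𝒮 : G → AddSubgroup S) [DirectSum.Decomposition 𝒮] {A : Type u3} [AddCommGroup A]
    {M : Type u4} [AddCommGroup M] (T : S →+ A →+ M) {d : Type u5} [Fintype d] [DecidableEq d]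
    (g : G) (t : G → G) {n : ℕ} (c : (Fin (n + 1) → G) → A) (v u : Matrix d d S) : M :=
  ∑ᶠ w : Fin (n + 1) → G, if IsConj (List.ofFn w).prod g then
    T (List.ofFn fun i : Fin (n + 1) =>
        if Even (i : ℕ) then comp 𝒮 v (w i) else comp 𝒮 u (w i)).prod.trace
      (c fun i => t (List.ofFn w).prod * ((List.ofFn w).take i).prod) else 0

/-- `S` is a ring graded by the group `G`, `T : S × A → M` is biadditive with
`T (x y, a) = T (y x, a)`, `u` and `v` are inverse matrices over `S`, `g ∈ G`,
`t y * y * (t y)⁻¹ = g` for all `y` conjugate to `g`, `c` is an `A`-valued cocycle for `g` of degree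
`2 k + 1`, `τ` the number of `u` and `c`. (1) If `g` has finite order and `k ≥ 1`, then `k! τ` is
divisible by all `N ≥ 1` such that `G` has no element of order `p` for the primes `p ∣ N`.
(2) If `H` is a subgroup which contains the degrees of the homogeneous components of `u` and `v`,
and no conjugate of `g` in `H` is a `p ^ (b + 1)`-th power in `H`, then `k! p ^ (2 b) τ` is
divisible by all powers of `p`. -/
theorem result (G : Type u1) [Group G] [DecidableEq G] (S : Type u2) [Ring S]
    (𝒮 : G → AddSubgroup S) [DirectSum.Decomposition 𝒮] (h1 : (1 : S) ∈ 𝒮 1)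
    (hmul : ∀ g h : G, ∀ x ∈ 𝒮 g, ∀ y ∈ 𝒮 h, x * y ∈ 𝒮 (g * h))
    (A : Type u3) [AddCommGroup A] (M : Type u4) [AddCommGroup M] (T : S →+ A →+ M)
    (hT : ∀ x y, T (x * y) = T (y * x)) (d : Type u5) [Fintype d] [DecidableEq d]
    (v u : Matrix d d S) (hvu : v * u = 1) (huv : u * v = 1) (g : G) (t : G → G)
    (ht : ∀ y, IsConj y g → t y * y * (t y)⁻¹ = g) (k : ℕ)
    (c : (Fin (2 * k + 1 + 1) → G) → A) (hc : IsClassCocycle g c) :
    (IsOfFinOrder g → 1 ≤ k → ∀ N : ℕ, N ≠ 0 →
      (∀ p : ℕ, p.Prime → p ∣ N → ∀ y : G, orderOf y ≠ p) →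
      ∃ y : M, k.factorial • oddNumber 𝒮 T g t c v u = N • y) ∧
    (∀ (p : ℕ) (b : ℕ) (H : Subgroup G), p.Prime → (∀ s, comp 𝒮 v s ≠ 0 → s ∈ H) →
      (∀ s, comp 𝒮 u s ≠ 0 → s ∈ H) →
      (∀ y ∈ H, IsConj y g → ∀ x ∈ H, x ^ p ^ (b + 1) ≠ y) →
      ∀ m : ℕ, ∃ y : M, (k.factorial * p ^ (2 * b)) • oddNumber 𝒮 T g t c v u = p ^ m • y) := by
  have hc' : Pool.Agent.W647.HX1.IsClassCoc g c :=
    ⟨hc.perm, hc.rep, hc.left, hc.single, hc.closed⟩
  have h2 : oddNumber 𝒮 T g t c v u = Pool.Agent.W647.HX1.odTau T g t c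
      (Pool.Agent.W647.HX1.gc 𝒮 v) (Pool.Agent.W647.HX1.gc 𝒮 u) := by
    rw [oddNumber, Pool.Agent.W647.HX1.odTau]
    refine finsum_congr fun w => ?_
    rw [Pool.Agent.Y35.KC.altC_ofFn]
    rfl
  rw [h2]
  refine ⟨fun hg hk N hN hp => ?_, fun p b H hp hv hu hroot m => ?_⟩
  · exact Pool.Agent.W647.HX1.graded_odd 𝒮 h1 hmul T hT hg ht (by omega) hc' v u hvu huv N hN hp
  · exact Pool.Agent.W647.HX1.graded_height 𝒮 h1 hmul T hT ht hc' v u hvu huv H hv hu hp b hroot m

end Pool.Agent.Results.MP_5d3e93_al.OddChernGradedRings
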