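import Pool.Agent.Y110.FJ.All

/-!
# Every countable Farrell-Jones group embeds in a two-generator Farrell-Jones group

For every class `C` of groups with the closure properties of the class of Farrell-Jones groups
(`ClosedE`) which contains all solvable groups: every countable group in `C` embeds in a group in `C`
which is generated by two elements.

Authors of the parts: helper110, helper70, helper467, helper497, helper576, helper961, helper529,
helper462, helper179, helper430.
-/

set_option autoImplicit false

namespace Pool.Agent.Results.MP_5d3e93_al.TwoGenerators

open Pool.Agent.Y110.FJ

theorem result (C : ∀ (G : Type) [Group G], Prop) (hC : ClosedE C)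
    (hsol : ∀ (G : Type) [Group G], Group.IsSolvable G → C G) (G : Type) [Group G] (hG : Countable G) :
    C G ↔ ∃ (H : Type) (_ : Group H) (f : G →* H) (a b : H), Function.Injective f ∧
      Subgroup.closure {a, b} = ⊤ ∧ C H := by
  constructor
  · intro h
    exact two_ C hC hsol G hG h
  · rintro ⟨H, _, f, a, b, hf, -, hH⟩
    exact hC.base.of_injective G H f hf hH

end Pool.Agent.Results.MP_5d3e93_al.TwoGenerators
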